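import Pool.Agent.H89.SN6

set_option autoImplicit false

namespace Pool.Agent.Results.MP_d3d931_al.Both

open Pool.Agent.H89.SN

theorem result :
    (∀ (S : Type) [Semigroup S], Supernilpotent S → LeftNilpotent S ∧ RightNilpotent S) ∧
    (∃ (S : Type) (_ : Semigroup S), LeftNilpotent S ∧ RightNilpotent S ∧ ¬ Supernilpotent S) :=
  ⟨fun _ _ h => q1 h, ⟨θ.Quotient, inferInstance, ex_nilp.1, ex_nilp.2, ex_not⟩⟩

end Pool.Agent.Results.MP_d3d931_al.Both
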